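import Mathlib

/-!
# Brun-Hooley sieve: definitions
Blocks of primes `[2^(2^j), 2^(2^(j+1)))`, sieving level `z = 2^(2^r)`.
-/

set_option autoImplicit false

namespace Pool.Agent.BrunHooley

open Finset

/-- the primes `p` with `2^(2^j) ≤ p < 2^(2^(j+1))` -/
def Blk (j : ℕ) : Finset ℕ := (Finset.Ico (2 ^ 2 ^ j) (2 ^ 2 ^ (j + 1))).filter Nat.Prime

/-- the primes below `2^(2^r)` -/
def Pz (r : ℕ) : Finset ℕ := (Finset.range (2 ^ 2 ^ r)).filter Nat.Prime

open Classical in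
/-- number of `m < p` with `A p m` -/
noncomputable def rho (A : ℕ → ℕ → Prop) (p : ℕ) : ℕ :=
  ((Finset.range p).filter (fun m => A p m)).card

open Classical in
/-- number of `m < M` for which `A p m` holds for no prime `p < 2^(2^r)` -/
noncomputable def sift (A : ℕ → ℕ → Prop) (r M : ℕ) : ℕ :=
  ((Finset.range M).filter (fun m => ∀ p ∈ Pz r, ¬ A p m)).card

/-- the sieve product -/
noncomputable def W (A : ℕ → ℕ → Prop) (r : ℕ) : ℝ := ∏ p ∈ Pz r, (1 - (rho A p : ℝ) / p)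

/-- `A p` is periodic modulo `p` -/
def Per (A : ℕ → ℕ → Prop) : Prop := ∀ p m, A p (m + p) ↔ A p m

/-- truncated signed sum (Bonferroni) -/
noncomputable def tr (b : ℕ) (S : Finset ℕ) (a : ℕ → ℝ) : ℝ :=
  ∑ T ∈ S.powerset.filter (fun T => T.card ≤ b), (-1 : ℝ) ^ T.card * ∏ p ∈ T, a p

/-- elementary symmetric sum -/
noncomputable def es (n : ℕ) (S : Finset ℕ) (a : ℕ → ℝ) : ℝ :=
  ∑ T ∈ S.powersetCard n, ∏ p ∈ T, a p

end Pool.Agent.BrunHooley
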