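import Mathlib
import Pool.Agent.BrunHooley.Defs

/-!
# Brun-Hooley sieve, module X4: an upper bound of Mertens type for one block
`∑_{2^(2^j) ≤ p < 2^(2^(j+1))} 1/p ≤ log 2 + ε` for all large `j`.
-/

set_option autoImplicit false

namespace Pool.Agent.BrunHooley

open Finset

namespace MertensAux

open ArithmeticFunction

/-- `∑_{d ≤ n} Λ(d)/d` -/
noncomputable def M (n : ℕ) : ℝ := ∑ d ∈ Ioc 0 n, vonMangoldt d / d

theorem sum_log (n : ℕ) : ∑ k ∈ Ioc 0 n, Real.log k = ∑ d ∈ Ioc 0 n, vonMangoldt d * ((n / d : ℕ) : ℝ) := by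
  have h := sum_Ioc_mul_zeta_eq_sum (R := ℝ) vonMangoldt n
  rw [← h]
  refine Finset.sum_congr rfl fun k _ => ?_
  rw [vonMangoldt_mul_zeta]
  rfl

theorem log_fact (n : ℕ) : Real.log (n.factorial : ℝ) = ∑ k ∈ Ioc 0 n, Real.log k := by
  induction n with
  | zero => simp
  | succ n ih =>
    rw [Nat.factorial_succ, Nat.cast_mul, Real.log_mul (by positivity) (by positivity), ih,
      ← Finset.insert_Ioc_right_eq_Ioc_add_one (Nat.zero_le n), Finset.sum_insert (by simp)]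

theorem M_ge (n : ℕ) (hn : n ≠ 0) : Real.log n - 1 ≤ M n := by
  have hn0 : (0 : ℝ) < n := by exact_mod_cast Nat.pos_of_ne_zero hn
  have h1 := Stirling.le_log_factorial_stirling hn
  have h2 : ∑ d ∈ Ioc 0 n, vonMangoldt d * ((n / d : ℕ) : ℝ) ≤ n * M n := by
    rw [M, Finset.mul_sum]
    refine Finset.sum_le_sum fun d hd => ?_
    have hd0 : (0 : ℝ) < d := by exact_mod_cast (Finset.mem_Ioc.1 hd).1
    have h3 : ((n / d : ℕ) : ℝ) ≤ (n : ℝ) / d := Nat.cast_div_le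
    calc vonMangoldt d * ((n / d : ℕ) : ℝ) ≤ vonMangoldt d * ((n : ℝ) / d) :=
          mul_le_mul_of_nonneg_left h3 vonMangoldt_nonneg
      _ = n * (vonMangoldt d / d) := by ring
  rw [← sum_log, ← log_fact] at h2
  have h4 : (1 : ℝ) ≤ 2 * Real.pi * n := by
    have : (1 : ℝ) ≤ n := by exact_mod_cast Nat.one_le_iff_ne_zero.2 hn
    nlinarith [Real.pi_gt_three]
  have h5 : 0 ≤ Real.log (2 * Real.pi * n) := Real.log_nonneg h4
  have h5' : 0 ≤ Real.log (2 * Real.pi) := Real.log_nonneg (by linarith [Real.pi_gt_three])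
  have h5'' : 0 ≤ Real.log (n : ℝ) := Real.log_nonneg (by exact_mod_cast Nat.one_le_iff_ne_zero.2 hn)
  have h6 : (n : ℝ) * Real.log n - n ≤ n * M n := by linarith
  have h7 : (n : ℝ) * (Real.log n - 1) ≤ n * M n := by linarith
  exact le_of_mul_le_mul_left h7 hn0

theorem M_le (n : ℕ) (hn : n ≠ 0) : M n ≤ Real.log n + (Real.log 4 + 4) := by
  have hn0 : (0 : ℝ) < n := by exact_mod_cast Nat.pos_of_ne_zero hn
  have h2 : n * M n ≤ ∑ d ∈ Ioc 0 n, vonMangoldt d * ((n / d : ℕ) : ℝ) + ∑ d ∈ Ioc 0 n, vonMangoldt d := by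
    rw [M, Finset.mul_sum, ← Finset.sum_add_distrib]
    refine Finset.sum_le_sum fun d hd => ?_
    have hd0 : (0 : ℝ) < d := by exact_mod_cast (Finset.mem_Ioc.1 hd).1
    have h3 : (n : ℝ) / d ≤ ((n / d : ℕ) : ℝ) + 1 := by
      have := Nat.lt_div_mul_add (a := n) (b := d) (by exact_mod_cast hd0)
      rw [div_le_iff₀ hd0]
      have h4 : (n : ℝ) < (n / d : ℕ) * d + d := by exact_mod_cast this
      linarith
    calc n * (vonMangoldt d / d) = vonMangoldt d * ((n : ℝ) / d) := by ring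
      _ ≤ vonMangoldt d * (((n / d : ℕ) : ℝ) + 1) := mul_le_mul_of_nonneg_left h3 vonMangoldt_nonneg
      _ = _ := by ring
  rw [← sum_log] at h2
  have h3 : ∑ k ∈ Ioc 0 n, Real.log (k : ℝ) ≤ n * Real.log n := by
    calc ∑ k ∈ Ioc 0 n, Real.log (k : ℝ) ≤ ∑ k ∈ Ioc 0 n, Real.log (n : ℝ) := by
          refine Finset.sum_le_sum fun k hk => ?_
          have hk := Finset.mem_Ioc.1 hk
          exact Real.log_le_log (by exact_mod_cast hk.1) (by exact_mod_cast hk.2)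
      _ = n * Real.log n := by simp
  have h4 : ∑ d ∈ Ioc 0 n, vonMangoldt d ≤ (Real.log 4 + 4) * n := by
    have := Chebyshev.psi_le_const_mul_self (x := (n : ℝ)) (by positivity)
    simpa [Chebyshev.psi] using this
  have h7 : (n : ℝ) * M n ≤ n * (Real.log n + (Real.log 4 + 4)) := by linarith
  exact le_of_mul_le_mul_left h7 hn0

/-- sum of `log p / p` over the primes in a real interval `[x, y)`, `1 ≤ x` -/
theorem prime_window (x y : ℝ) (hx : 2 ≤ x) (hxy : x ≤ y) :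
    ∑ p ∈ (Ico ⌈x⌉₊ ⌈y⌉₊).filter Nat.Prime, Real.log p / p ≤
      Real.log y - Real.log x + 9 := by
  set a := ⌈x⌉₊ - 1 with ha
  set b := ⌈y⌉₊ - 1 with hb
  have hx1 : 1 < ⌈x⌉₊ := by
    rw [Nat.lt_ceil]; push_cast; linarith
  have hy1 : 1 < ⌈y⌉₊ := by
    rw [Nat.lt_ceil]; push_cast; linarith
  have hab : ⌈x⌉₊ ≤ ⌈y⌉₊ := Nat.ceil_mono hxy
  have ha1 : a + 1 = ⌈x⌉₊ := by omega
  have hb1 : b + 1 = ⌈y⌉₊ := by omega
  have hsub : ∑ p ∈ (Ico ⌈x⌉₊ ⌈y⌉₊).filter Nat.Prime, Real.log p / p ≤ M b - M a := by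
    have h1 : M b = M a + ∑ d ∈ Ioc a b, vonMangoldt d / d := by
      rw [M, M, ← Finset.sum_union]
      · congr 1
        ext z; simp only [mem_Ioc, mem_union]; omega
      · rw [Finset.disjoint_left]; intro z; simp only [mem_Ioc]; omega
    rw [h1, add_sub_cancel_left]
    calc ∑ p ∈ (Ico ⌈x⌉₊ ⌈y⌉₊).filter Nat.Prime, Real.log p / p
        = ∑ p ∈ (Ico ⌈x⌉₊ ⌈y⌉₊).filter Nat.Prime, vonMangoldt p / p := by
          refine Finset.sum_congr rfl fun p hp => ?_
          rw [vonMangoldt_apply_prime (Finset.mem_filter.1 hp).2]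
      _ ≤ ∑ d ∈ Ioc a b, vonMangoldt d / d := by
          refine Finset.sum_le_sum_of_subset_of_nonneg ?_ fun d _ _ =>
            div_nonneg vonMangoldt_nonneg (Nat.cast_nonneg d)
          intro p hp
          simp only [mem_filter, mem_Ico, mem_Ioc] at hp ⊢
          omega
  have ha0 : a ≠ 0 := by omega
  have hb0 : b ≠ 0 := by omega
  have h3 := M_ge a ha0
  have h4 := M_le b hb0
  have hxa : x ≤ 2 * a := by
    have h5 : x ≤ ⌈x⌉₊ := Nat.le_ceil x
    have h6 : (a : ℝ) + 1 = ⌈x⌉₊ := by exact_mod_cast ha1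
    have h7 : (1 : ℝ) ≤ a := by exact_mod_cast Nat.one_le_iff_ne_zero.2 ha0
    linarith
  have hlogx : Real.log x ≤ Real.log 2 + Real.log a := by
    rw [← Real.log_mul (by norm_num) (by exact_mod_cast ha0)]
    exact Real.log_le_log (by linarith) hxa
  have hby : (b : ℝ) ≤ y := by
    have : b < ⌈y⌉₊ := by omega
    exact (Nat.lt_ceil.1 this).le
  have hlogy : Real.log b ≤ Real.log y :=
    Real.log_le_log (by exact_mod_cast Nat.pos_of_ne_zero hb0) hby
  have hlog2 := Real.log_two_lt_d9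
  have hlog4 : Real.log 4 = 2 * Real.log 2 := by
    rw [show (4 : ℝ) = 2 ^ 2 by norm_num, Real.log_pow]; norm_num
  linarith

theorem harm (J : ℕ) (hJ : 2 ≤ J) :
    ∑ i ∈ range J, (1 : ℝ) / (J + i) ≤ Real.log 2 + 1 / (J - 1) := by
  have hJ' : (2 : ℝ) ≤ J := by exact_mod_cast hJ
  have key : ∀ n : ℕ, ∑ i ∈ range n, (1 : ℝ) / (J + i) ≤ Real.log (J + n - 1) - Real.log (J - 1) := by
    intro n
    induction n with
    | zero => simp
    | succ n ih =>
      rw [Finset.sum_range_succ]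
      have hn : (0 : ℝ) ≤ n := Nat.cast_nonneg n
      have h1 : (1 : ℝ) / (J + n) ≤ Real.log (J + n) - Real.log (J + n - 1) := by
        rw [← Real.log_div (by linarith) (by linarith)]
        have h2 := Real.one_sub_inv_le_log_of_pos (x := ((J : ℝ) + n) / (J + n - 1))
          (div_pos (by linarith) (by linarith))
        refine le_trans (le_of_eq ?_) h2
        rw [inv_div]
        field_simp
        ring
      push_cast
      have h3 : (J : ℝ) + (n + 1) - 1 = J + n := by ring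
      rw [h3]
      linarith
  have h := key J
  have h2 : Real.log ((J : ℝ) + J - 1) - Real.log (J - 1) ≤ Real.log 2 + 1 / (J - 1) := by
    have h3 : Real.log ((J : ℝ) + J - 1) - Real.log (J - 1) - Real.log 2 =
        Real.log (((J : ℝ) + J - 1) / (2 * (J - 1))) := by
      rw [Real.log_div (by linarith) (by linarith), Real.log_mul (by norm_num) (by linarith)]
      ring
    have h4 : Real.log (((J : ℝ) + J - 1) / (2 * (J - 1))) ≤
        ((J : ℝ) + J - 1) / (2 * (J - 1)) - 1 :=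
      Real.log_le_sub_one_of_pos (div_pos (by linarith) (by linarith))
    have h5 : ((J : ℝ) + J - 1) / (2 * (J - 1)) - 1 ≤ 1 / (J - 1) := by
      have : (0 : ℝ) < J - 1 := by linarith
      rw [div_sub_one (by positivity), div_le_div_iff₀ (by positivity) this]
      nlinarith
    linarith
  linarith

end MertensAux

open MertensAux in
theorem blk_sum_le (ε : ℝ) (hε : 0 < ε) :
    ∃ j0 : ℕ, ∀ j ≥ j0, ∑ p ∈ Blk j, (1 : ℝ) / p ≤ Real.log 2 + ε := by
  obtain ⟨J, hJ⟩ := exists_nat_gt (2 / ε + 2)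
  have hJ2 : (2 : ℝ) < J := by
    have : 0 < 2 / ε := by positivity
    linarith
  have hJn : 2 ≤ J := by exact_mod_cast hJ2.le
  have hJε : 1 / ((J : ℝ) - 1) ≤ ε / 2 := by
    rw [div_le_iff₀ (by linarith)]
    have h1 : 2 / ε < J - 1 := by linarith
    rw [div_lt_iff₀ hε] at h1
    nlinarith
  obtain ⟨j0, hj0⟩ : ∃ j0 : ℕ, 9 * J * 2 / (ε * Real.log 2) ≤ (2 : ℝ) ^ j0 := by
    obtain ⟨n, hn⟩ := pow_unbounded_of_one_lt (9 * J * 2 / (ε * Real.log 2)) (one_lt_two (α := ℝ))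
    exact ⟨n, hn.le⟩
  refine ⟨j0, fun j hj => ?_⟩
  have hlog2 : 0 < Real.log 2 := Real.log_pos one_lt_two
  set L : ℝ := 2 ^ j * Real.log 2 with hL
  have hLpos : 0 < L := by positivity
  have hLbig : 9 * J / L ≤ ε / 2 := by
    have h1 : (2 : ℝ) ^ j0 ≤ 2 ^ j := pow_le_pow_right₀ (by norm_num) hj
    have h2 : 9 * J * 2 / (ε * Real.log 2) ≤ (2 : ℝ) ^ j := hj0.trans h1
    rw [div_le_iff₀ (by positivity)] at h2
    rw [div_le_iff₀ hLpos, hL]
    nlinarith
  have hJpos : (0 : ℝ) < J := by linarith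
  -- cut points
  set x : ℕ → ℝ := fun i => Real.exp (L * (1 + i / J)) with hx
  have hxmono : ∀ i k : ℕ, i ≤ k → x i ≤ x k := by
    intro i k hik
    apply Real.exp_le_exp.2
    have : (i : ℝ) ≤ k := by exact_mod_cast hik
    have h2 : (i : ℝ) / J ≤ k / J := div_le_div_of_nonneg_right this hJpos.le
    nlinarith
  have hx0 : x 0 = 2 ^ 2 ^ j := by
    simp only [hx, hL]
    rw [Nat.cast_zero, zero_div, add_zero, mul_one, mul_comm, Real.exp_mul,
      Real.exp_log (by norm_num)]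
    rw [show ((2 : ℝ) ^ j) = ((2 ^ j : ℕ) : ℝ) by push_cast; rfl, Real.rpow_natCast]
  have hxJ : x J = 2 ^ 2 ^ (j + 1) := by
    simp only [hx, hL]
    rw [div_self hJpos.ne', show (2 : ℝ) ^ j * Real.log 2 * (1 + 1) = Real.log 2 * 2 ^ (j + 1) by
      rw [pow_succ]; ring, Real.exp_mul, Real.exp_log (by norm_num)]
    rw [show ((2 : ℝ) ^ (j + 1)) = ((2 ^ (j + 1) : ℕ) : ℝ) by push_cast; rfl, Real.rpow_natCast]
  have hx2 : ∀ i, 2 ≤ x i := by
    intro i
    refine le_trans ?_ (hxmono 0 i (Nat.zero_le i))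
    rw [hx0]
    calc (2 : ℝ) = 2 ^ 1 := by norm_num
      _ ≤ 2 ^ 2 ^ j := pow_le_pow_right₀ (by norm_num) (Nat.one_le_two_pow)
  -- the block is the union of the windows
  have hsum : ∀ n : ℕ, ∑ p ∈ (Ico ⌈x 0⌉₊ ⌈x n⌉₊).filter Nat.Prime, (1 : ℝ) / p ≤
      ∑ i ∈ range n, ∑ p ∈ (Ico ⌈x i⌉₊ ⌈x (i + 1)⌉₊).filter Nat.Prime, (1 : ℝ) / p := by
    intro n
    induction n with
    | zero => simp
    | succ n ih =>
      rw [Finset.sum_range_succ]
      refine le_trans ?_ (add_le_add_left ih _)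
      rw [← Finset.sum_union]
      · refine Finset.sum_le_sum_of_subset_of_nonneg ?_ fun _ _ _ => by positivity
        intro p hp
        simp only [mem_filter, mem_Ico, mem_union] at hp ⊢
        have h1 : ⌈x 0⌉₊ ≤ ⌈x n⌉₊ := Nat.ceil_mono (hxmono 0 n (Nat.zero_le n))
        by_cases h : p < ⌈x n⌉₊
        · left; exact ⟨⟨hp.1.1, h⟩, hp.2⟩
        · right; exact ⟨⟨not_lt.1 h, hp.1.2⟩, hp.2⟩
      · rw [Finset.disjoint_left]
        intro p hp hp'
        simp only [mem_filter, mem_Ico] at hp hp'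
        omega
  have hwin : ∀ i ∈ range J, ∑ p ∈ (Ico ⌈x i⌉₊ ⌈x (i + 1)⌉₊).filter Nat.Prime, (1 : ℝ) / p ≤
      1 / (J + i) + 9 / L := by
    intro i _
    have hi0 : (0 : ℝ) ≤ i := Nat.cast_nonneg i
    set c : ℝ := L * (1 + i / J) with hc
    have hcpos : 0 < c := by positivity
    have h1 : ∀ p ∈ (Ico ⌈x i⌉₊ ⌈x (i + 1)⌉₊).filter Nat.Prime,
        (1 : ℝ) / p ≤ (Real.log p / p) * (1 / c) := by
      intro p hp
      simp only [mem_filter, mem_Ico] at hp
      have hpx : x i ≤ p := (Nat.ceil_le.1 hp.1.1)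
      have hp0 : (0 : ℝ) < p := by exact_mod_cast hp.2.pos
      have hlog : c ≤ Real.log p := by
        rw [Real.le_log_iff_exp_le hp0]
        exact hpx
      rw [div_mul_div_comm, mul_one, div_le_div_iff₀ hp0 (by positivity)]
      nlinarith
    have h2 := prime_window (x i) (x (i + 1)) (hx2 i) (hxmono i (i + 1) (Nat.le_succ i))
    have h3 : Real.log (x (i + 1)) - Real.log (x i) = L / J := by
      simp only [hx, Real.log_exp]
      push_cast
      field_simp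
      ring
    rw [h3] at h2
    calc ∑ p ∈ (Ico ⌈x i⌉₊ ⌈x (i + 1)⌉₊).filter Nat.Prime, (1 : ℝ) / p
        ≤ ∑ p ∈ (Ico ⌈x i⌉₊ ⌈x (i + 1)⌉₊).filter Nat.Prime, (Real.log p / p) * (1 / c) :=
          Finset.sum_le_sum h1
      _ = (∑ p ∈ (Ico ⌈x i⌉₊ ⌈x (i + 1)⌉₊).filter Nat.Prime, Real.log p / p) * (1 / c) := by
          rw [Finset.sum_mul]
      _ ≤ (L / J + 9) * (1 / c) := mul_le_mul_of_nonneg_right h2 (by positivity)
      _ ≤ 1 / (J + i) + 9 / L := by
          have e1 : L / J * (1 / c) = 1 / (J + i) := by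
            rw [hc]; field_simp
          have e2 : 9 * (1 / c) ≤ 9 / L := by
            have : L ≤ c := by
              rw [hc]
              have : 0 ≤ (i : ℝ) / J := by positivity
              nlinarith
            rw [mul_one_div]
            exact div_le_div_of_nonneg_left (by norm_num) hLpos this
          rw [add_mul, e1]
          linarith
  have hblk : Blk j = (Ico ⌈x 0⌉₊ ⌈x J⌉₊).filter Nat.Prime := by
    rw [hx0, hxJ, Blk]
    have e1 : ⌈(2 : ℝ) ^ 2 ^ j⌉₊ = 2 ^ 2 ^ j := by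
      rw [show ((2 : ℝ) ^ 2 ^ j) = ((2 ^ 2 ^ j : ℕ) : ℝ) by push_cast; rfl, Nat.ceil_natCast]
    have e2 : ⌈(2 : ℝ) ^ 2 ^ (j + 1)⌉₊ = 2 ^ 2 ^ (j + 1) := by
      rw [show ((2 : ℝ) ^ 2 ^ (j + 1)) = ((2 ^ 2 ^ (j + 1) : ℕ) : ℝ) by push_cast; rfl,
        Nat.ceil_natCast]
    rw [e1, e2]
  rw [hblk]
  calc ∑ p ∈ (Ico ⌈x 0⌉₊ ⌈x J⌉₊).filter Nat.Prime, (1 : ℝ) / p
      ≤ ∑ i ∈ range J, ∑ p ∈ (Ico ⌈x i⌉₊ ⌈x (i + 1)⌉₊).filter Nat.Prime, (1 : ℝ) / p := hsum J
    _ ≤ ∑ i ∈ range J, ((1 : ℝ) / (J + i) + 9 / L) := Finset.sum_le_sum hwin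
    _ = ∑ i ∈ range J, (1 : ℝ) / (J + i) + 9 * J / L := by
        rw [Finset.sum_add_distrib, Finset.sum_const, Finset.card_range, nsmul_eq_mul]
        ring
    _ ≤ Real.log 2 + ε := by
        have := harm J hJn
        linarith

end Pool.Agent.BrunHooley
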