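import Pool.Agent.BrunHooley.Crt

/-! X3: averaging a product over blocks. -/

set_option autoImplicit false

namespace Pool.Agent.BrunHooley

open Finset

open Classical in
theorem average (A : ℕ → ℕ → Prop) (hA : Per A) (M : ℕ) (𝒯 : ℕ → Finset (Finset ℕ))
    (c : ℕ → Finset ℕ → ℝ) (hc : ∀ j T, |c j T| ≤ 1) (r : ℕ)
    (h𝒯 : ∀ j < r, ∀ T ∈ 𝒯 j, T ⊆ Blk j) (T0 : Finset ℕ)
    (hT0 : ∀ p ∈ T0, p.Prime ∧ 2 ^ 2 ^ r ≤ p) :
    |(∑ m ∈ Finset.range M, (∏ p ∈ T0, (if A p m then (1 : ℝ) else 0)) *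
        ∏ j ∈ Finset.range r, ∑ T ∈ 𝒯 j, c j T * ∏ p ∈ T, (if A p m then (1 : ℝ) else 0)) -
      M * ((∏ p ∈ T0, ((rho A p : ℝ) / p)) *
        ∏ j ∈ Finset.range r, ∑ T ∈ 𝒯 j, c j T * ∏ p ∈ T, ((rho A p : ℝ) / p))| ≤
    (∏ p ∈ T0, (rho A p : ℝ)) * ∏ j ∈ Finset.range r, ∑ T ∈ 𝒯 j, ∏ p ∈ T, (rho A p : ℝ) := by
  induction r generalizing T0 with
  | zero =>
    simp only [Finset.range_zero, Finset.prod_empty, mul_one]
    have h := crt_count A hA T0 (fun p hp => (hT0 p hp).1) M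
    have h2 : ∑ m ∈ Finset.range M, ∏ p ∈ T0, (if A p m then (1 : ℝ) else 0) =
        (((Finset.range M).filter (fun m => ∀ p ∈ T0, A p m)).card : ℝ) := by
      have h3 : ∀ m, ∏ p ∈ T0, (if A p m then (1 : ℝ) else 0) =
          if ∀ p ∈ T0, A p m then 1 else 0 := by
        intro m
        split_ifs with h
        · exact Finset.prod_eq_one fun p hp => by simp [h p hp]
        · push Not at h
          obtain ⟨p, hp, hD⟩ := h
          exact Finset.prod_eq_zero hp (by simp [hD])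
      simp_rw [h3]
      rw [Finset.sum_ite, Finset.sum_const_zero, add_zero, Finset.sum_const, nsmul_eq_mul, mul_one]
    rw [h2]
    exact h
  | succ r ih =>
    have h𝒯' : ∀ j < r, ∀ T ∈ 𝒯 j, T ⊆ Blk j := fun j hj => h𝒯 j (by omega)
    have hblk : ∀ T ∈ 𝒯 r, ∀ p ∈ T, p.Prime ∧ 2 ^ 2 ^ r ≤ p ∧ p < 2 ^ 2 ^ (r + 1) := by
      intro T hT p hp
      have h1 := h𝒯 r (by omega) T hT hp
      simp only [Blk, Finset.mem_filter, Finset.mem_Ico] at h1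
      exact ⟨h1.2, h1.1.1, h1.1.2⟩
    have hTd : ∀ T ∈ 𝒯 r, Disjoint T0 T := by
      intro T hT
      rw [Finset.disjoint_left]
      intro p hp hp'
      have h1 := (hT0 p hp).2
      have h2 := (hblk T hT p hp').2.2
      omega
    have hpow : (2 : ℕ) ^ 2 ^ r ≤ 2 ^ 2 ^ (r + 1) :=
      Nat.pow_le_pow_right (by norm_num) (Nat.pow_le_pow_right (by norm_num) (by omega))
    have key : ∀ T ∈ 𝒯 r, |(∑ m ∈ Finset.range M,
        (∏ p ∈ T0 ∪ T, (if A p m then (1 : ℝ) else 0)) *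
        ∏ j ∈ Finset.range r, ∑ T ∈ 𝒯 j, c j T * ∏ p ∈ T, (if A p m then (1 : ℝ) else 0)) -
      M * ((∏ p ∈ T0 ∪ T, ((rho A p : ℝ) / p)) *
        ∏ j ∈ Finset.range r, ∑ T ∈ 𝒯 j, c j T * ∏ p ∈ T, ((rho A p : ℝ) / p))| ≤
      (∏ p ∈ T0 ∪ T, (rho A p : ℝ)) *
        ∏ j ∈ Finset.range r, ∑ T ∈ 𝒯 j, ∏ p ∈ T, (rho A p : ℝ) := by
      intro T hT
      refine ih h𝒯' (T0 ∪ T) ?_
      intro p hp
      rcases Finset.mem_union.1 hp with h | h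
      · exact ⟨(hT0 p h).1, hpow.trans (hT0 p h).2⟩
      · exact ⟨(hblk T hT p h).1, (hblk T hT p h).2.1⟩
    have e1 : (∑ m ∈ Finset.range M, (∏ p ∈ T0, (if A p m then (1 : ℝ) else 0)) *
        ∏ j ∈ Finset.range (r + 1), ∑ T ∈ 𝒯 j, c j T * ∏ p ∈ T, (if A p m then (1 : ℝ) else 0)) =
        ∑ T ∈ 𝒯 r, c r T * ∑ m ∈ Finset.range M,
        (∏ p ∈ T0 ∪ T, (if A p m then (1 : ℝ) else 0)) *
        ∏ j ∈ Finset.range r, ∑ T ∈ 𝒯 j, c j T * ∏ p ∈ T, (if A p m then (1 : ℝ) else 0) := by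
      simp_rw [Finset.mul_sum]
      rw [Finset.sum_comm]
      refine Finset.sum_congr rfl fun m _ => ?_
      rw [Finset.prod_range_succ, Finset.mul_sum, Finset.mul_sum]
      refine Finset.sum_congr rfl fun T hT => ?_
      rw [Finset.prod_union (hTd T hT)]
      ring
    have e2 : M * ((∏ p ∈ T0, ((rho A p : ℝ) / p)) *
        ∏ j ∈ Finset.range (r + 1), ∑ T ∈ 𝒯 j, c j T * ∏ p ∈ T, ((rho A p : ℝ) / p)) =
        ∑ T ∈ 𝒯 r, c r T * (M * ((∏ p ∈ T0 ∪ T, ((rho A p : ℝ) / p)) *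
        ∏ j ∈ Finset.range r, ∑ T ∈ 𝒯 j, c j T * ∏ p ∈ T, ((rho A p : ℝ) / p))) := by
      rw [Finset.prod_range_succ, Finset.mul_sum, Finset.mul_sum, Finset.mul_sum]
      refine Finset.sum_congr rfl fun T hT => ?_
      rw [Finset.prod_union (hTd T hT)]
      ring
    have e3 : (∏ p ∈ T0, (rho A p : ℝ)) *
        ∏ j ∈ Finset.range (r + 1), ∑ T ∈ 𝒯 j, ∏ p ∈ T, (rho A p : ℝ) =
        ∑ T ∈ 𝒯 r, ((∏ p ∈ T0 ∪ T, (rho A p : ℝ)) *
        ∏ j ∈ Finset.range r, ∑ T ∈ 𝒯 j, ∏ p ∈ T, (rho A p : ℝ)) := by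
      rw [Finset.prod_range_succ, Finset.mul_sum, Finset.mul_sum]
      refine Finset.sum_congr rfl fun T hT => ?_
      rw [Finset.prod_union (hTd T hT)]
      ring
    rw [e1, e2, e3, ← Finset.sum_sub_distrib]
    refine (Finset.abs_sum_le_sum_abs _ _).trans (Finset.sum_le_sum fun T hT => ?_)
    rw [← mul_sub, abs_mul]
    have h1 := mul_le_mul_of_nonneg_right (hc r T) (abs_nonneg
      ((∑ m ∈ Finset.range M,
        (∏ p ∈ T0 ∪ T, (if A p m then (1 : ℝ) else 0)) *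
        ∏ j ∈ Finset.range r, ∑ T ∈ 𝒯 j, c j T * ∏ p ∈ T, (if A p m then (1 : ℝ) else 0)) -
      M * ((∏ p ∈ T0 ∪ T, ((rho A p : ℝ) / p)) *
        ∏ j ∈ Finset.range r, ∑ T ∈ 𝒯 j, c j T * ∏ p ∈ T, ((rho A p : ℝ) / p))))
    rw [one_mul] at h1
    exact h1.trans (key T hT)

end Pool.Agent.BrunHooley
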