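import Pool.Agent.BrunHooley.Defs
import Pool.Agent.Sieve8.BrunHooley

/-! X1: Bonferroni's inequalities and the product inequality. -/

set_option autoImplicit false

namespace Pool.Agent.BrunHooley

open Finset

theorem es_eq8 (n : ℕ) (S : Finset ℕ) (a : ℕ → ℝ) : es n S a = Sieve8.es n S a := rfl

theorem tr_eq8 (b : ℕ) (S : Finset ℕ) (a : ℕ → ℝ) : tr b S a = Sieve8.tr b S a := by
  rw [← Sieve8.sum_small_tr]; rfl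

theorem bonferroni (b : ℕ) (hb : Even b) (S : Finset ℕ) (a : ℕ → ℝ)
    (h0 : ∀ p ∈ S, 0 ≤ a p) (h1 : ∀ p ∈ S, a p ≤ 1) :
    ∏ p ∈ S, (1 - a p) ≤ tr b S a ∧ tr b S a ≤ ∏ p ∈ S, (1 - a p) + es (b + 1) S a := by
  rw [tr_eq8, es_eq8]
  exact ⟨Sieve8.prod_le_tr h0 h1 hb, Sieve8.tr_le_add h0 h1 hb⟩

theorem es_nonneg (n : ℕ) (S : Finset ℕ) (a : ℕ → ℝ) (h0 : ∀ p ∈ S, 0 ≤ a p) : 0 ≤ es n S a :=
  Sieve8.es_nonneg h0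

theorem es_le (n : ℕ) (S : Finset ℕ) (a : ℕ → ℝ) (h0 : ∀ p ∈ S, 0 ≤ a p) :
    es n S a ≤ (∑ p ∈ S, a p) ^ n / n.factorial := Sieve8.es_le h0 n

theorem prod_ge (s : Finset ℕ) (x y : ℕ → ℝ) (hx : ∀ j ∈ s, 0 ≤ x j) (hxy : ∀ j ∈ s, x j ≤ y j) :
    ∏ j ∈ s, y j - ∑ l ∈ s, (y l - x l) * ∏ j ∈ s.erase l, y j ≤ ∏ j ∈ s, x j :=
  Sieve8.hooley s x y (fun l => y l - x l) hx hxy (fun j _ => by simp)

end Pool.Agent.BrunHooley
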