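import Pool.Agent.BrunHooley.Defs
import Pool.Agent.Sieve8.Interval

/-! X2: counting by the Chinese remainder theorem. -/

set_option autoImplicit false

namespace Pool.Agent.BrunHooley

open Finset

theorem per_mod {A : ℕ → ℕ → Prop} (hA : Per A) (p m : ℕ) : A p m ↔ A p (m % p) := by
  have h : ∀ k, A p (m % p + p * k) ↔ A p (m % p) := by
    intro k
    induction k with
    | zero => simp
    | succ k ih =>
      rw [Nat.mul_succ, ← Nat.add_assoc, hA p (m % p + p * k), ih]
  rw [← h (m / p), Nat.mod_add_div]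

open Classical in
theorem crt_count (A : ℕ → ℕ → Prop) (hA : Per A) (T : Finset ℕ) (hT : ∀ p ∈ T, p.Prime) (M : ℕ) :
    |(((Finset.range M).filter (fun m => ∀ p ∈ T, A p m)).card : ℝ) -
        M * ∏ p ∈ T, ((rho A p : ℝ) / p)| ≤ ∏ p ∈ T, (rho A p : ℝ) := by
  have h := Sieve8.interval_count (fun p => (Finset.range p).filter (fun m => A p m)) T hT
    (fun p _ r hr => Finset.mem_range.1 (Finset.mem_filter.1 hr).1) 0 M
  have e : (Finset.Ico 0 (0 + M)).filter (fun n => ∀ p ∈ T, n % p ∈
      (Finset.range p).filter (fun m => A p m)) =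
      (Finset.range M).filter (fun m => ∀ p ∈ T, A p m) := by
    ext n
    simp only [Finset.mem_filter, Finset.mem_Ico, Finset.mem_range, zero_le, true_and, zero_add]
    refine and_congr_right fun _ => forall₂_congr fun p hp => ?_
    rw [per_mod hA p n]
    exact ⟨fun h => h.2, fun h => ⟨Nat.mod_lt _ (hT p hp).pos, h⟩⟩
  rw [e] at h
  exact h

end Pool.Agent.BrunHooley
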