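import Mathlib
import Pool.Agent.BrunHooley.Defs

/-!
# Brun-Hooley sieve, module X5
`∏_{p < n, p ∤ k} (1 - 1/p) ≤ (k/φ(k)) / log n`.
-/

set_option autoImplicit false

namespace Pool.Agent.BrunHooley

open Finset

namespace EulerAux

/-- the multiplicative function `m ↦ 1/m` -/
noncomputable def invHom : ℕ →* ℝ where
  toFun m := (m : ℝ)⁻¹
  map_one' := by simp
  map_mul' a b := by push_cast; rw [mul_inv]

theorem log_le_sum (n : ℕ) (hn : 1 ≤ n) : Real.log n ≤ ∑ m ∈ Ico 1 n, ((m : ℕ) : ℝ)⁻¹ := by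
  induction n, hn using Nat.le_induction with
  | base => simp
  | succ n hn ih =>
    rw [Finset.sum_Ico_succ_top hn]
    have hn0 : (0 : ℝ) < n := by exact_mod_cast hn
    have h1 : Real.log ((n : ℝ) + 1) - Real.log n ≤ (n : ℝ)⁻¹ := by
      rw [← Real.log_div (by positivity) hn0.ne']
      have := Real.log_le_sub_one_of_pos (x := ((n : ℝ) + 1) / n) (by positivity)
      refine this.trans (le_of_eq ?_)
      field_simp
      ring
    push_cast
    linarith

theorem log_le_prod (n : ℕ) (hn : 1 ≤ n) :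
    Real.log n ≤ ∏ p ∈ n.primesBelow, (1 - ((p : ℕ) : ℝ)⁻¹)⁻¹ := by
  have hf : ∀ {p : ℕ}, p.Prime → ‖invHom p‖ < 1 := by
    intro p hp
    have h1 : (1 : ℝ) < p := by exact_mod_cast hp.one_lt
    change ‖((p : ℝ))⁻¹‖ < 1
    rw [norm_inv, Real.norm_natCast]
    exact inv_lt_one_of_one_lt₀ h1
  have h := EulerProduct.summable_and_hasSum_smoothNumbers_prod_primesBelow_geometric
    (f := invHom) hf n
  have h2 := sum_le_hasSum (f := fun m : n.smoothNumbers => invHom m)
    ((Ico 1 n).subtype (· ∈ n.smoothNumbers)) (fun m _ => by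
      change 0 ≤ (((m : ℕ) : ℝ))⁻¹
      positivity) h.2
  rw [Finset.sum_subtype_of_mem (f := fun m => invHom m)] at h2
  · exact (log_le_sum n hn).trans h2
  · intro x hx
    simp only [mem_Ico] at hx
    exact Nat.mem_smoothNumbers_of_lt (by omega) hx.2

end EulerAux

open EulerAux in
theorem prod_primes_coprime_le (k n : ℕ) (hk : 1 ≤ k) (hn : 2 ≤ n) :
    ∏ p ∈ (Finset.range n).filter (fun p => p.Prime ∧ ¬ p ∣ k), (1 - (1 : ℝ) / p) ≤
      ((k : ℝ) / k.totient) / Real.log n := by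
  classical
  have hlog : 0 < Real.log n := Real.log_pos (by exact_mod_cast hn)
  have hpos : ∀ p : ℕ, p.Prime → 0 < 1 - (1 : ℝ) / p := by
    intro p hp
    have h1 : (1 : ℝ) < p := by exact_mod_cast hp.one_lt
    rw [sub_pos, div_lt_one (by linarith)]
    exact h1
  have hle1 : ∀ p : ℕ, 1 - (1 : ℝ) / p ≤ 1 := by
    intro p
    have : 0 ≤ (1 : ℝ) / p := by positivity
    linarith
  -- all primes below n
  have hall : ∏ p ∈ n.primesBelow, (1 - (1 : ℝ) / p) ≤ (Real.log n)⁻¹ := by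
    have h := log_le_prod n (by omega)
    rw [Finset.prod_inv_distrib] at h
    have hP : 0 < ∏ p ∈ n.primesBelow, (1 - ((p : ℕ) : ℝ)⁻¹) := by
      refine Finset.prod_pos fun p hp => ?_
      have := hpos p (Nat.prime_of_mem_primesBelow hp)
      rwa [one_div] at this
    have h3 := inv_anti₀ hlog h
    rw [inv_inv] at h3
    simpa only [one_div] using h3
  -- split
  have hsplit : (∏ p ∈ (Finset.range n).filter (fun p => p.Prime ∧ ¬ p ∣ k), (1 - (1 : ℝ) / p)) *
      ∏ p ∈ (Finset.range n).filter (fun p => p.Prime ∧ p ∣ k), (1 - (1 : ℝ) / p) =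
      ∏ p ∈ n.primesBelow, (1 - (1 : ℝ) / p) := by
    rw [← Finset.prod_union]
    · congr 1
      ext p
      simp only [mem_union, mem_filter, mem_range, Nat.mem_primesBelow]
      tauto
    · rw [Finset.disjoint_left]
      intro p hp hp'
      simp only [mem_filter, mem_range] at hp hp'
      exact hp.2.2 hp'.2.2
  have htot : (k.totient : ℝ) / k = ∏ p ∈ k.primeFactors, (1 - (1 : ℝ) / p) := by
    have h := Nat.totient_eq_mul_prod_factors k
    have hk0 : (k : ℝ) ≠ 0 := by exact_mod_cast (by omega : k ≠ 0)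
    rw [div_eq_iff hk0, mul_comm]
    have h2 : ((k.totient : ℚ) : ℝ) = ((k * ∏ p ∈ k.primeFactors, (1 - (p : ℚ)⁻¹) : ℚ) : ℝ) := by
      rw [h]
    push_cast at h2
    simpa only [one_div] using h2
  have hge : (k.totient : ℝ) / k ≤
      ∏ p ∈ (Finset.range n).filter (fun p => p.Prime ∧ p ∣ k), (1 - (1 : ℝ) / p) := by
    rw [htot]
    refine Finset.prod_le_prod_of_subset_of_le_one ?_ ?_ ?_
    · intro p hp
      simp only [mem_filter, mem_range] at hp
      exact Nat.mem_primeFactors.2 ⟨hp.2.1, hp.2.2, by omega⟩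
    · intro p hp
      exact (hpos p (Nat.prime_of_mem_primeFactors hp)).le
    · intro p _ _
      exact hle1 p
  have htpos : (0 : ℝ) < (k.totient : ℝ) / k := by
    have : 0 < k.totient := Nat.totient_pos.2 (by omega)
    positivity
  have hA0 : 0 ≤ ∏ p ∈ (Finset.range n).filter (fun p => p.Prime ∧ ¬ p ∣ k), (1 - (1 : ℝ) / p) :=
    Finset.prod_nonneg fun p hp => (hpos p (Finset.mem_filter.1 hp).2.1).le
  have hfin : (∏ p ∈ (Finset.range n).filter (fun p => p.Prime ∧ ¬ p ∣ k), (1 - (1 : ℝ) / p)) *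
      ((k.totient : ℝ) / k) ≤ (Real.log n)⁻¹ := by
    calc _ ≤ (∏ p ∈ (Finset.range n).filter (fun p => p.Prime ∧ ¬ p ∣ k), (1 - (1 : ℝ) / p)) *
        ∏ p ∈ (Finset.range n).filter (fun p => p.Prime ∧ p ∣ k), (1 - (1 : ℝ) / p) :=
          mul_le_mul_of_nonneg_left hge hA0
      _ = ∏ p ∈ n.primesBelow, (1 - (1 : ℝ) / p) := hsplit
      _ ≤ _ := hall
  rw [← le_div_iff₀ htpos] at hfin
  refine hfin.trans (le_of_eq ?_)
  rw [div_eq_mul_inv, inv_div, div_eq_mul_inv (b := Real.log (n : ℝ)), mul_comm]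

end Pool.Agent.BrunHooley
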