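import Mathlib
import Pool.Agent.BrunHooley.Defs
import Pool.Agent.BrunHooley.Bonferroni
import Pool.Agent.BrunHooley.Average
import Pool.Agent.BrunHooley.Mertens

/-!
# A positive lower bound in the Brun-Hooley sieve, any dimension
-/

set_option autoImplicit false

namespace Pool.Agent.BrunHooley

open Finset

/-! ### blocks -/

theorem Pz_succ (r : ℕ) : Pz (r + 1) = Pz r ∪ Blk r := by
  ext p
  simp only [Pz, Blk, mem_filter, mem_range, mem_union, mem_Ico]
  have h : 2 ^ 2 ^ r ≤ 2 ^ 2 ^ (r + 1) :=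
    Nat.pow_le_pow_right (by norm_num) (Nat.pow_le_pow_right (by norm_num) (by omega))
  constructor
  · rintro ⟨h1, h2⟩
    by_cases h3 : p < 2 ^ 2 ^ r
    · exact Or.inl ⟨h3, h2⟩
    · exact Or.inr ⟨⟨by omega, h1⟩, h2⟩
  · rintro (⟨h1, h2⟩ | ⟨⟨h1, h3⟩, h2⟩)
    · exact ⟨by omega, h2⟩
    · exact ⟨h3, h2⟩

theorem Pz_disj (r : ℕ) : Disjoint (Pz r) (Blk r) := by
  rw [Finset.disjoint_left]
  intro p h1 h2
  simp only [Pz, Blk, mem_filter, mem_range, mem_Ico] at h1 h2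
  omega

theorem Pz_zero : Pz 0 = ∅ := by
  ext p
  simp only [Pz, mem_filter, mem_range, pow_zero, pow_one, notMem_empty, iff_false]
  rintro ⟨h1, h2⟩
  exact absurd h2.two_le (by omega)

theorem prod_Pz (f : ℕ → ℝ) (r : ℕ) :
    ∏ p ∈ Pz r, f p = ∏ j ∈ range r, ∏ p ∈ Blk j, f p := by
  induction r with
  | zero => simp [Pz_zero]
  | succ r ih => rw [Pz_succ, prod_union (Pz_disj r), ih, prod_range_succ]

theorem mem_Blk {j p : ℕ} (h : p ∈ Blk j) : 2 ^ 2 ^ j ≤ p ∧ p < 2 ^ 2 ^ (j + 1) ∧ p.Prime := by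
  simp only [Blk, mem_filter, mem_Ico] at h
  exact ⟨h.1.1, h.1.2, h.2⟩

theorem Blk_sub_Pz {j r : ℕ} (h : j < r) : Blk j ⊆ Pz r := by
  intro p hp
  obtain ⟨h1, h2, h3⟩ := mem_Blk hp
  simp only [Pz, mem_filter, mem_range]
  refine ⟨lt_of_lt_of_le h2 ?_, h3⟩
  exact Nat.pow_le_pow_right (by norm_num) (Nat.pow_le_pow_right (by norm_num) (by omega))

theorem card_Blk_lt (j : ℕ) : (Blk j).card + 1 ≤ 2 ^ 2 ^ (j + 1) := by
  have h1 : (Blk j).card ≤ 2 ^ 2 ^ (j + 1) - 2 ^ 2 ^ j := by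
    unfold Blk
    refine (card_filter_le _ _).trans ?_
    rw [Nat.card_Ico]
  have h2 : 1 ≤ 2 ^ 2 ^ j := Nat.one_le_two_pow
  have h3 : 2 ^ 2 ^ j ≤ 2 ^ 2 ^ (j + 1) :=
    Nat.pow_le_pow_right (by norm_num) (Nat.pow_le_pow_right (by norm_num) (by omega))
  omega

/-! ### counting subsets -/

theorem sum_choose_le (κ n b : ℕ) : ∑ i ∈ range (b + 1), n.choose i * κ ^ i ≤ (1 + κ * n) ^ b := by
  induction b with
  | zero => simp
  | succ b ih =>
    rw [sum_range_succ]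
    have h1 : n.choose (b + 1) ≤ n ^ (b + 1) := Nat.choose_le_pow n (b + 1)
    have h2 : n.choose (b + 1) * κ ^ (b + 1) ≤ (κ * n) ^ (b + 1) := by
      rw [mul_pow, mul_comm]
      exact Nat.mul_le_mul_left _ h1
    have h3 : (κ * n) ^ (b + 1) ≤ (κ * n) * (1 + κ * n) ^ b := by
      rw [pow_succ']
      exact Nat.mul_le_mul_left _ (Nat.pow_le_pow_left (by omega) b)
    calc _ ≤ (1 + κ * n) ^ b + (κ * n) * (1 + κ * n) ^ b := by omega
      _ = (1 + κ * n) ^ (b + 1) := by ring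

theorem sum_le_card_pow (κ b : ℕ) (S : Finset ℕ) :
    ∑ T ∈ S.powerset.filter (fun T => T.card ≤ b), (κ : ℝ) ^ T.card ≤ ((1 + κ * S.card : ℕ) : ℝ) ^ b := by
  have h1 : ∑ T ∈ S.powerset.filter (fun T => T.card ≤ b), (κ : ℝ) ^ T.card =
      ((∑ i ∈ range (b + 1), S.card.choose i * κ ^ i : ℕ) : ℝ) := by
    have h2 : S.powerset.filter (fun T => T.card ≤ b) =
        (range (b + 1)).biUnion (fun i => S.powersetCard i) := by
      ext T
      simp only [mem_filter, mem_powerset, mem_biUnion, mem_range, mem_powersetCard]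
      constructor
      · rintro ⟨h1, h2⟩
        exact ⟨T.card, by omega, h1, rfl⟩
      · rintro ⟨i, h1, h2, h3⟩
        exact ⟨h2, by omega⟩
    rw [h2, sum_biUnion]
    · push_cast
      apply sum_congr rfl
      intro i _
      rw [sum_congr rfl (fun T hT => by rw [(mem_powersetCard.1 hT).2])]
      rw [sum_const, card_powersetCard, nsmul_eq_mul]
    · intro i _ j _ hij
      exact disjoint_left.2 (fun T h1 h2 => hij (by
        rw [← (mem_powersetCard.1 h1).2, ← (mem_powersetCard.1 h2).2]))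
  rw [h1]
  exact_mod_cast sum_choose_le κ S.card b

theorem sum_powersetCard_le (κ n : ℕ) (S : Finset ℕ) :
    ∑ T ∈ S.powersetCard n, (κ : ℝ) ^ T.card ≤ ((1 + κ * S.card : ℕ) : ℝ) ^ n := by
  refine le_trans (sum_le_sum_of_subset_of_nonneg ?_ ?_) (sum_le_card_pow κ n S)
  · intro T hT
    rw [mem_powersetCard] at hT
    simp only [mem_filter, mem_powerset]
    exact ⟨hT.1, hT.2.le⟩
  · intro T _ _
    positivity


/-! ### elementary inequalities -/

theorem exp_le_one_sub {w : ℝ} (h0 : 0 ≤ w) (h1 : w ≤ 1 / 2) : Real.exp (-(2 * w)) ≤ 1 - w := by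
  have hpos : (0 : ℝ) < 1 - w := by linarith
  have h2 := Real.one_sub_inv_le_log_of_pos hpos
  have h3 : -(2 * w) ≤ 1 - (1 - w)⁻¹ := by
    have h4 : 1 - (1 - w)⁻¹ = -(w / (1 - w)) := by field_simp; ring
    rw [h4]
    have h5 : w / (1 - w) ≤ 2 * w := by
      rw [div_le_iff₀ hpos]
      nlinarith
    linarith
  have h6 : -(2 * w) ≤ Real.log (1 - w) := h3.trans h2
  calc Real.exp (-(2 * w)) ≤ Real.exp (Real.log (1 - w)) := Real.exp_le_exp.2 h6
    _ = 1 - w := Real.exp_log hpos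

theorem growth (A B C : ℝ) : ∃ r0 : ℕ, ∀ r : ℕ, r0 ≤ r →
    A * (r : ℝ) ^ 2 + B * r + C < 2 ^ r * Real.log 2 := by
  have h2 := tendsto_pow_const_div_const_pow_of_one_lt 2 (one_lt_two : (1 : ℝ) < 2)
  have h1 := tendsto_pow_const_div_const_pow_of_one_lt 1 (one_lt_two : (1 : ℝ) < 2)
  have h0 := tendsto_pow_const_div_const_pow_of_one_lt 0 (one_lt_two : (1 : ℝ) < 2)
  have h := ((h2.const_mul A).add (h1.const_mul B)).add (h0.const_mul C)
  simp only [mul_zero, add_zero] at h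
  have hl : (0 : ℝ) < Real.log 2 := Real.log_pos one_lt_two
  have := (h.eventually (gt_mem_nhds hl))
  rw [Filter.eventually_atTop] at this
  obtain ⟨r0, hr0⟩ := this
  refine ⟨r0, fun r hr => ?_⟩
  have h3 := hr0 r hr
  have h4 : (0 : ℝ) < 2 ^ r := by positivity
  have h5 : A * ((r : ℝ) ^ 2 / 2 ^ r) + B * ((r : ℝ) ^ 1 / 2 ^ r) + C * ((r : ℝ) ^ 0 / 2 ^ r) =
      (A * (r : ℝ) ^ 2 + B * r + C) / 2 ^ r := by
    field_simp
  rw [h5, div_lt_iff₀ h4] at h3
  linarith [h3, mul_comm (Real.log 2) ((2 : ℝ) ^ r)]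

theorem tail_small (x η : ℝ) (hx : 0 ≤ x) (hη : 0 < η) : ∃ β : ℕ, ∀ n : ℕ,
    ∑ i ∈ range n, x ^ (2 * β + 2 * i + 1) / (2 * β + 2 * i + 1).factorial ≤ η := by
  have hs : Summable (fun k : ℕ => x ^ k / (k.factorial : ℝ)) := Real.summable_pow_div_factorial x
  have ht := tendsto_sum_nat_add (fun k : ℕ => x ^ k / (k.factorial : ℝ))
  have := ht.eventually (gt_mem_nhds hη)
  rw [Filter.eventually_atTop] at this
  obtain ⟨β, hβ⟩ := this
  refine ⟨β, fun n => ?_⟩
  have h1 := hβ (2 * β + 1) (by omega)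
  have hs' : Summable (fun k : ℕ => x ^ (k + (2 * β + 1)) / ((k + (2 * β + 1)).factorial : ℝ)) :=
    (summable_nat_add_iff (2 * β + 1)).2 hs
  have h2 : ∑ i ∈ range n, x ^ (2 * β + 2 * i + 1) / ((2 * β + 2 * i + 1).factorial : ℝ) ≤
      ∑ k ∈ range (2 * n), x ^ (k + (2 * β + 1)) / ((k + (2 * β + 1)).factorial : ℝ) := by
    have h3 : ∑ i ∈ range n, x ^ (2 * β + 2 * i + 1) / ((2 * β + 2 * i + 1).factorial : ℝ) =
        ∑ k ∈ (range n).image (fun i => 2 * i),
          x ^ (k + (2 * β + 1)) / ((k + (2 * β + 1)).factorial : ℝ) := by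
      rw [sum_image (by intro a _ b _ h; simpa using h)]
      apply sum_congr rfl
      intro i _
      rw [show 2 * i + (2 * β + 1) = 2 * β + 2 * i + 1 by ring]
    rw [h3]
    apply sum_le_sum_of_subset_of_nonneg
    · intro k hk
      simp only [mem_image, mem_range] at hk ⊢
      obtain ⟨i, hi, rfl⟩ := hk
      omega
    · intro k _ _
      positivity
  have h4 : ∑ k ∈ range (2 * n), x ^ (k + (2 * β + 1)) / ((k + (2 * β + 1)).factorial : ℝ) ≤
      ∑' k : ℕ, x ^ (k + (2 * β + 1)) / ((k + (2 * β + 1)).factorial : ℝ) :=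
    hs'.sum_le_tsum _ (fun k _ => by positivity)
  linarith

/-! ### exponents -/

/-- the truncation parameters -/
def bb (β r j : ℕ) : ℕ := 2 * β + 2 * (r - 1 - j)

theorem exp_sum_le (β r : ℕ) : ∑ j ∈ range r, 2 ^ (j + 1) * bb β r j ≤ 2 ^ r * (4 * β + 4) := by
  have key : ∀ r : ℕ, ∑ j ∈ range r, 2 ^ (j + 1) * (2 * β + 2 * (r - 1 - j)) + 2 ^ 2 * r + 4 * β + 4
      ≤ 2 ^ r * (4 * β + 4) + 2 ^ 2 * r := by
    intro r
    induction r with
    | zero => simp
    | succ r ih =>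
      rw [sum_range_succ]
      have h1 : ∑ j ∈ range r, 2 ^ (j + 1) * (2 * β + 2 * (r + 1 - 1 - j)) =
          ∑ j ∈ range r, 2 ^ (j + 1) * (2 * β + 2 * (r - 1 - j)) + 2 * ∑ j ∈ range r, 2 ^ (j + 1) := by
        rw [mul_sum, ← sum_add_distrib]
        apply sum_congr rfl
        intro j hj
        rw [mem_range] at hj
        have : r + 1 - 1 - j = (r - 1 - j) + 1 := by omega
        rw [this]; ring
      have h2 : ∑ j ∈ range r, 2 ^ (j + 1) + 2 = 2 ^ (r + 1) := by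
        clear ih h1
        induction r with
        | zero => simp
        | succ r ih => rw [sum_range_succ, pow_succ 2 (r + 1)]; omega
      rw [h1]
      have h3 : r + 1 - 1 - r = 0 := by omega
      rw [h3]
      have h4 : 2 ^ (r + 1) = 2 * 2 ^ r := by ring
      rw [h4] at h2 ⊢
      nlinarith
  have := key r
  unfold bb
  omega

theorem bb_sum_le (β r : ℕ) : ∑ j ∈ range r, bb β r j ≤ 2 * β * r + r ^ 2 := by
  have h1 : ∀ j ∈ range r, bb β r j ≤ 2 * β + (2 * (r - 1 - j)) := fun j _ => le_rfl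
  unfold bb
  rw [sum_add_distrib, sum_const, card_range, smul_eq_mul]
  have h2 : ∑ j ∈ range r, 2 * (r - 1 - j) ≤ r ^ 2 := by
    rw [← mul_sum, Finset.sum_range_reflect (fun i => i) r]
    have := Finset.sum_range_id_mul_two r
    have h3 : (∑ i ∈ range r, i) * 2 = r * (r - 1) := this
    calc 2 * ∑ i ∈ range r, i = (∑ i ∈ range r, i) * 2 := by ring
      _ = r * (r - 1) := h3
      _ ≤ r * r := Nat.mul_le_mul_left _ (by omega)
      _ = r ^ 2 := by ring
  nlinarith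

end Pool.Agent.BrunHooley
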