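import Mathlib
import Pool.Agent.BrunHooley.Lower

/-!
# Brun-Hooley: positivity of the sifted set in any dimension

`sift_pos`: for every `κ` there are `u, r0` such that for `r ≥ r0`, every periodic family `A` with
`rho A p ≤ κ`, `rho A p < p` for the primes `p < z = 2^(2^r)` and every `M ≥ z^u` some `m < M`
satisfies `A p m` for no prime `p < z`.
-/

set_option autoImplicit false

namespace Pool.Agent.BrunHooley

open Finset

open Classical in
/-- indicator -/
noncomputable def chi (A : ℕ → ℕ → Prop) (m p : ℕ) : ℝ := if A p m then 1 else 0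

/-- density -/
noncomputable def ww (A : ℕ → ℕ → Prop) (p : ℕ) : ℝ := (rho A p : ℝ) / p

theorem chi_nonneg (A : ℕ → ℕ → Prop) (m p : ℕ) : 0 ≤ chi A m p := by
  unfold chi; split_ifs <;> norm_num

theorem chi_le_one (A : ℕ → ℕ → Prop) (m p : ℕ) : chi A m p ≤ 1 := by
  unfold chi; split_ifs <;> norm_num

theorem sift_eq_sum (A : ℕ → ℕ → Prop) (r M : ℕ) :
    (sift A r M : ℝ) = ∑ m ∈ range M, ∏ j ∈ range r, ∏ p ∈ Blk j, (1 - chi A m p) := by
  classical
  unfold sift
  rw [card_filter]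
  push_cast
  apply sum_congr rfl
  intro m _
  rw [← prod_Pz (fun p => 1 - chi A m p) r]
  split_ifs with h
  · symm
    apply prod_eq_one
    intro p hp
    simp [chi, h p hp]
  · symm
    push Not at h
    obtain ⟨p, hp, hAp⟩ := h
    apply prod_eq_zero hp
    simp [chi, hAp]

/-- error factor -/
noncomputable def EE (κ : ℕ) (b : ℕ) (j : ℕ) : ℝ := (((κ * 2 ^ 2 ^ (j + 1) : ℕ)) : ℝ) ^ b

theorem one_add_le (κ : ℕ) (hκ : 1 ≤ κ) (j : ℕ) :
    ((1 + κ * (Blk j).card : ℕ) : ℝ) ≤ ((κ * 2 ^ 2 ^ (j + 1) : ℕ) : ℝ) := by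
  have h := card_Blk_lt j
  have : 1 + κ * (Blk j).card ≤ κ * 2 ^ 2 ^ (j + 1) := by
    calc 1 + κ * (Blk j).card ≤ κ * 1 + κ * (Blk j).card := by omega
      _ = κ * ((Blk j).card + 1) := by ring
      _ ≤ _ := Nat.mul_le_mul_left _ h
  exact_mod_cast this

theorem prod_rho_le (A : ℕ → ℕ → Prop) (κ : ℕ) (T : Finset ℕ) (h : ∀ p ∈ T, rho A p ≤ κ) :
    ∏ p ∈ T, (rho A p : ℝ) ≤ (κ : ℝ) ^ T.card := by
  calc ∏ p ∈ T, (rho A p : ℝ) ≤ ∏ _p ∈ T, (κ : ℝ) := by
        apply prod_le_prod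
        · intro p _; positivity
        · intro p hp; exact_mod_cast h p hp
    _ = _ := by rw [prod_const]

theorem err_tr (A : ℕ → ℕ → Prop) (κ : ℕ) (hκ : 1 ≤ κ) (b j : ℕ)
    (h : ∀ p ∈ Blk j, rho A p ≤ κ) :
    ∑ T ∈ (Blk j).powerset.filter (fun T => T.card ≤ b), ∏ p ∈ T, (rho A p : ℝ) ≤ EE κ b j := by
  calc _ ≤ ∑ T ∈ (Blk j).powerset.filter (fun T => T.card ≤ b), (κ : ℝ) ^ T.card := by
        apply sum_le_sum
        intro T hT
        simp only [mem_filter, mem_powerset] at hT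
        exact prod_rho_le A κ T (fun p hp => h p (hT.1 hp))
    _ ≤ _ := sum_le_card_pow κ b (Blk j)
    _ ≤ _ := by
        unfold EE
        exact pow_le_pow_left₀ (by positivity) (one_add_le κ hκ j) b

theorem err_es (A : ℕ → ℕ → Prop) (κ : ℕ) (hκ : 1 ≤ κ) (b j : ℕ)
    (h : ∀ p ∈ Blk j, rho A p ≤ κ) :
    ∑ T ∈ (Blk j).powersetCard b, ∏ p ∈ T, (rho A p : ℝ) ≤ EE κ b j := by
  calc _ ≤ ∑ T ∈ (Blk j).powersetCard b, (κ : ℝ) ^ T.card := by
        apply sum_le_sum
        intro T hT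
        rw [mem_powersetCard] at hT
        exact prod_rho_le A κ T (fun p hp => h p (hT.1 hp))
    _ ≤ _ := sum_powersetCard_le κ b (Blk j)
    _ ≤ _ := by
        unfold EE
        exact pow_le_pow_left₀ (by positivity) (one_add_le κ hκ j) b

theorem prod_range_ite (r l : ℕ) (hl : l < r) (Y : ℕ → ℝ) (E : ℝ) :
    ∏ j ∈ range r, (if j = l then E else Y j) = E * ∏ j ∈ (range r).erase l, Y j := by
  rw [← mul_prod_erase (range r) _ (mem_range.2 hl), if_pos rfl]
  congr 1
  apply prod_congr rfl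
  intro j hj
  rw [if_neg (ne_of_mem_erase hj)]

theorem main_tr (A : ℕ → ℕ → Prop) (hA : Per A) (b : ℕ → ℕ) (κ : ℕ) (hκ : 1 ≤ κ) (r M : ℕ)
    (hrho : ∀ p ∈ Pz r, rho A p ≤ κ) :
    M * ∏ j ∈ range r, tr (b j) (Blk j) (ww A) - ∏ j ∈ range r, EE κ (b j) j ≤
      ∑ m ∈ range M, ∏ j ∈ range r, tr (b j) (Blk j) (chi A m) := by
  classical
  have h := average A hA M (fun j => (Blk j).powerset.filter (fun T => T.card ≤ b j))
    (fun _ T => (-1 : ℝ) ^ T.card) (fun j T => by rw [abs_pow, abs_neg, abs_one, one_pow]) r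
    (fun j _ T hT => by
      simp only [mem_filter, mem_powerset] at hT
      exact hT.1) ∅ (fun p hp => absurd hp (notMem_empty p))
  simp only [prod_empty, one_mul] at h
  have h2 : ∏ j ∈ range r, ∑ T ∈ (Blk j).powerset.filter (fun T => T.card ≤ b j),
      ∏ p ∈ T, (rho A p : ℝ) ≤ ∏ j ∈ range r, EE κ (b j) j := by
    apply prod_le_prod
    · intro j _
      apply sum_nonneg
      intro T _
      positivity
    · intro j hj
      exact err_tr A κ hκ (b j) j (fun p hp => hrho p (Blk_sub_Pz (mem_range.1 hj) hp))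
  have h3 := (abs_le.1 (h.trans h2)).1
  have h4 : ∑ m ∈ range M, ∏ j ∈ range r, tr (b j) (Blk j) (chi A m) =
      ∑ m ∈ range M, ∏ j ∈ range r, ∑ T ∈ (Blk j).powerset.filter (fun T => T.card ≤ b j),
        (-1 : ℝ) ^ T.card * ∏ p ∈ T, (if A p m then (1 : ℝ) else 0) := rfl
  have h5 : ∏ j ∈ range r, tr (b j) (Blk j) (ww A) =
      ∏ j ∈ range r, ∑ T ∈ (Blk j).powerset.filter (fun T => T.card ≤ b j),
        (-1 : ℝ) ^ T.card * ∏ p ∈ T, ((rho A p : ℝ) / p) := rfl
  rw [h4, h5]
  linarith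

theorem main_es (A : ℕ → ℕ → Prop) (hA : Per A) (b : ℕ → ℕ) (κ : ℕ) (hκ : 1 ≤ κ) (r M l : ℕ)
    (hl : l < r) (hrho : ∀ p ∈ Pz r, rho A p ≤ κ) :
    ∑ m ∈ range M, es (b l + 1) (Blk l) (chi A m) *
        ∏ j ∈ (range r).erase l, tr (b j) (Blk j) (chi A m) ≤
      M * (es (b l + 1) (Blk l) (ww A) * ∏ j ∈ (range r).erase l, tr (b j) (Blk j) (ww A)) +
        (κ * 2 ^ 2 ^ r : ℕ) * ∏ j ∈ range r, EE κ (b j) j := by
  classical
  have h := average A hA M
    (fun j => if j = l then (Blk l).powersetCard (b l + 1)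
      else (Blk j).powerset.filter (fun T => T.card ≤ b j))
    (fun j T => if j = l then 1 else (-1 : ℝ) ^ T.card)
    (fun j T => by
      split_ifs
      · simp
      · rw [abs_pow, abs_neg, abs_one, one_pow]) r
    (fun j _ T hT => by
      split_ifs at hT with h1
      · rw [h1]; exact (mem_powersetCard.1 hT).1
      · simp only [mem_filter, mem_powerset] at hT
        exact hT.1) ∅ (fun p hp => absurd hp (notMem_empty p))
  simp only [prod_empty, one_mul] at h
  have e1 : ∀ a : ℕ → ℝ, ∏ j ∈ range r, ∑ T ∈ (if j = l then (Blk l).powersetCard (b l + 1)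
      else (Blk j).powerset.filter (fun T => T.card ≤ b j)),
      (if j = l then 1 else (-1 : ℝ) ^ T.card) * ∏ p ∈ T, a p =
      es (b l + 1) (Blk l) a * ∏ j ∈ (range r).erase l, tr (b j) (Blk j) a := by
    intro a
    rw [← prod_range_ite r l hl (fun j => tr (b j) (Blk j) a)]
    apply prod_congr rfl
    intro j _
    split_ifs with h1
    · simp [es]
    · rfl
  have e2 : ∏ j ∈ range r, ∑ T ∈ (if j = l then (Blk l).powersetCard (b l + 1)
      else (Blk j).powerset.filter (fun T => T.card ≤ b j)), ∏ p ∈ T, (rho A p : ℝ) ≤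
      (κ * 2 ^ 2 ^ r : ℕ) * ∏ j ∈ range r, EE κ (b j) j := by
    have h3 : ∏ j ∈ range r, ∑ T ∈ (if j = l then (Blk l).powersetCard (b l + 1)
      else (Blk j).powerset.filter (fun T => T.card ≤ b j)), ∏ p ∈ T, (rho A p : ℝ) ≤
      ∏ j ∈ range r, (if j = l then EE κ (b l + 1) l else EE κ (b j) j) := by
      apply prod_le_prod
      · intro j _
        apply sum_nonneg
        intro T _
        positivity
      · intro j hj
        split_ifs with h1
        · exact err_es A κ hκ _ l (fun p hp => hrho p (Blk_sub_Pz hl hp))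
        · exact err_tr A κ hκ (b j) j (fun p hp => hrho p (Blk_sub_Pz (mem_range.1 hj) hp))
    refine h3.trans ?_
    rw [prod_range_ite r l hl, ← mul_prod_erase (range r) _ (mem_range.2 hl), ← mul_assoc]
    apply mul_le_mul_of_nonneg_right _ (prod_nonneg (fun j _ => by unfold EE; positivity))
    unfold EE
    rw [pow_succ']
    apply mul_le_mul_of_nonneg_right _ (by positivity)
    have : κ * 2 ^ 2 ^ (l + 1) ≤ κ * 2 ^ 2 ^ r := by
      apply Nat.mul_le_mul_left
      exact Nat.pow_le_pow_right (by norm_num) (Nat.pow_le_pow_right (by norm_num) (by omega))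
    exact_mod_cast this
  have h3 := (abs_le.1 (h.trans e2)).2
  have h4 : ∑ m ∈ range M, es (b l + 1) (Blk l) (chi A m) *
        ∏ j ∈ (range r).erase l, tr (b j) (Blk j) (chi A m) =
      ∑ m ∈ range M, ∏ j ∈ range r, ∑ T ∈ (if j = l then (Blk l).powersetCard (b l + 1)
        else (Blk j).powerset.filter (fun T => T.card ≤ b j)),
        (if j = l then 1 else (-1 : ℝ) ^ T.card) * ∏ p ∈ T, (if A p m then (1 : ℝ) else 0) := by
    apply sum_congr rfl
    intro m _
    rw [e1 (fun p => if A p m then (1 : ℝ) else 0)]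
    rfl
  have h5 := e1 (fun p => (rho A p : ℝ) / p)
  rw [h4]
  have h6 : es (b l + 1) (Blk l) (ww A) * ∏ j ∈ (range r).erase l, tr (b j) (Blk j) (ww A) =
      ∏ j ∈ range r, ∑ T ∈ (if j = l then (Blk l).powersetCard (b l + 1)
      else (Blk j).powerset.filter (fun T => T.card ≤ b j)),
      (if j = l then 1 else (-1 : ℝ) ^ T.card) * ∏ p ∈ T, ((rho A p : ℝ) / p) := by
    rw [h5]; rfl
  rw [h6]
  linarith

/-- the Brun-Hooley inequality -/
theorem main_ineq (A : ℕ → ℕ → Prop) (hA : Per A) (b : ℕ → ℕ) (hb : ∀ j, Even (b j))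
    (κ : ℕ) (hκ : 1 ≤ κ) (r M : ℕ) (hrho : ∀ p ∈ Pz r, rho A p ≤ κ) :
    M * (∏ j ∈ range r, tr (b j) (Blk j) (ww A) -
        ∑ l ∈ range r, es (b l + 1) (Blk l) (ww A) *
          ∏ j ∈ (range r).erase l, tr (b j) (Blk j) (ww A)) -
      (1 + r * (κ * 2 ^ 2 ^ r : ℕ)) * ∏ j ∈ range r, EE κ (b j) j ≤ (sift A r M : ℝ) := by
  have h1 : ∑ m ∈ range M, (∏ j ∈ range r, tr (b j) (Blk j) (chi A m) -
      ∑ l ∈ range r, es (b l + 1) (Blk l) (chi A m) *
        ∏ j ∈ (range r).erase l, tr (b j) (Blk j) (chi A m)) ≤ (sift A r M : ℝ) := by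
    rw [sift_eq_sum]
    apply sum_le_sum
    intro m _
    have hbon := fun j => bonferroni (b j) (hb j) (Blk j) (chi A m)
      (fun p _ => chi_nonneg A m p) (fun p _ => chi_le_one A m p)
    have hx0 : ∀ j ∈ range r, 0 ≤ ∏ p ∈ Blk j, (1 - chi A m p) := by
      intro j _
      apply prod_nonneg
      intro p _
      linarith [chi_le_one A m p]
    have := prod_ge (range r) (fun j => ∏ p ∈ Blk j, (1 - chi A m p))
      (fun j => tr (b j) (Blk j) (chi A m)) hx0 (fun j _ => (hbon j).1)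
    refine le_trans ?_ this
    apply sub_le_sub_left
    apply sum_le_sum
    intro l _
    apply mul_le_mul_of_nonneg_right
    · have := (hbon l).2
      linarith
    · apply prod_nonneg
      intro j hj
      exact (hx0 j (mem_of_mem_erase hj)).trans (hbon j).1
  rw [sum_sub_distrib, sum_comm] at h1
  have h2 := main_tr A hA b κ hκ r M hrho
  have h3 : ∑ l ∈ range r, ∑ m ∈ range M, es (b l + 1) (Blk l) (chi A m) *
        ∏ j ∈ (range r).erase l, tr (b j) (Blk j) (chi A m) ≤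
      ∑ l ∈ range r, (M * (es (b l + 1) (Blk l) (ww A) *
          ∏ j ∈ (range r).erase l, tr (b j) (Blk j) (ww A)) +
        (κ * 2 ^ 2 ^ r : ℕ) * ∏ j ∈ range r, EE κ (b j) j) := by
    apply sum_le_sum
    intro l hl
    exact main_es A hA b κ hκ r M l (mem_range.1 hl) hrho
  rw [sum_add_distrib, ← mul_sum, sum_const, card_range, nsmul_eq_mul] at h3
  have h4 : (1 + (r : ℝ) * ((κ * 2 ^ 2 ^ r : ℕ) : ℝ)) * ∏ j ∈ range r, EE κ (b j) j =
      ∏ j ∈ range r, EE κ (b j) j + r * (((κ * 2 ^ 2 ^ r : ℕ) : ℝ) * ∏ j ∈ range r, EE κ (b j) j) := by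
    ring
  rw [h4, mul_sub]
  linarith

/-! ### the error product -/

theorem prod_EE_le (κ β r : ℕ) (hκ : 1 ≤ κ) :
    ∏ j ∈ range r, EE κ (bb β r j) j ≤
      (κ : ℝ) ^ (2 * β * r + r ^ 2) * 2 ^ (2 ^ r * (4 * β + 4)) := by
  have h1 : ∏ j ∈ range r, EE κ (bb β r j) j =
      (κ : ℝ) ^ (∑ j ∈ range r, bb β r j) * 2 ^ (∑ j ∈ range r, 2 ^ (j + 1) * bb β r j) := by
    rw [← prod_pow_eq_pow_sum, ← prod_pow_eq_pow_sum, ← prod_mul_distrib]
    apply prod_congr rfl
    intro j _
    unfold EE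
    push_cast
    rw [mul_pow, ← pow_mul]
  rw [h1]
  apply mul_le_mul
  · exact pow_le_pow_right₀ (by exact_mod_cast hκ) (bb_sum_le β r)
  · exact pow_le_pow_right₀ (by norm_num) (exp_sum_le β r)
  · positivity
  · positivity

theorem es_eq_zero (n : ℕ) (S : Finset ℕ) (a : ℕ → ℝ) (h : S.card < n) : es n S a = 0 := by
  unfold es
  rw [powersetCard_eq_empty.2 h]
  simp

theorem compare (K β r : ℕ) (c0 : ℝ) (hc0pos : 0 < c0) (hK1 : 1 ≤ K)
    (hg : Real.log K * (r : ℝ) ^ 2 + (1 + 2 * β * Real.log K + 2 * K) * r +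
      (Real.log 2 + Real.log K - Real.log c0) < 2 ^ r * Real.log 2) :
    Real.exp r * (K : ℝ) ^ (2 * β * r + r ^ 2 + 1) * 2 ^ (2 ^ r * (4 * β + 5)) <
      (2 : ℝ) ^ (2 ^ r * (4 * β + 7)) * (c0 * Real.exp (-(2 * K * r)) / 2) := by
  have hKpos : (0 : ℝ) < K := by exact_mod_cast hK1
  have hexp : Real.exp r * (K : ℝ) ^ (2 * β * r + r ^ 2 + 1) < 2 ^ (2 ^ r) *
      (c0 * Real.exp (-(2 * K * r)) / 2) := by
    have e1 : (K : ℝ) ^ (2 * β * r + r ^ 2 + 1) =
        Real.exp ((2 * β * r + r ^ 2 + 1) * Real.log K) := by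
      rw [← Real.exp_log (pow_pos hKpos (2 * β * r + r ^ 2 + 1)), Real.log_pow]
      push_cast; rfl
    have e2 : (2 : ℝ) ^ (2 ^ r) = Real.exp (2 ^ r * Real.log 2) := by
      rw [← Real.exp_log (pow_pos (by norm_num : (0 : ℝ) < 2) (2 ^ r)), Real.log_pow]
      push_cast; rfl
    have e4 : c0 * Real.exp (-(2 * K * r)) / 2 =
        Real.exp (Real.log c0 + -(2 * K * r) + -Real.log 2) := by
      rw [Real.exp_add, Real.exp_add, Real.exp_log hc0pos, Real.exp_neg (Real.log 2),
        Real.exp_log (by norm_num : (0 : ℝ) < 2)]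
      ring
    rw [e1, e2, e4, ← Real.exp_add, ← Real.exp_add]
    apply Real.exp_lt_exp.2
    have h1 : (r : ℝ) + (2 * β * r + r ^ 2 + 1) * Real.log K =
      (Real.log K * (r : ℝ) ^ 2 + (1 + 2 * β * Real.log K + 2 * K) * r +
        (Real.log 2 + Real.log K - Real.log c0)) + (Real.log c0 + -(2 * K * r) + -Real.log 2) := by
      ring
    rw [h1]
    linarith
  set P : ℝ := 2 ^ (2 ^ r) with hP
  set Q : ℝ := 2 ^ (2 ^ r * (4 * β + 5)) with hQ
  set R : ℝ := c0 * Real.exp (-(2 * K * r)) / 2 with hR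
  have h7 : (2 : ℝ) ^ (2 ^ r * (4 * β + 7)) = Q * P * P := by
    rw [hQ, hP, show 2 ^ r * (4 * β + 7) = 2 ^ r * (4 * β + 5) + 2 ^ r + 2 ^ r by ring, pow_add,
      pow_add]
  have h8 : (1 : ℝ) ≤ P := one_le_pow₀ (by norm_num)
  have h9 : (0 : ℝ) < Q := by positivity
  have hRpos : 0 < R := by positivity
  have h10 : 0 < P * R := by positivity
  rw [h7]
  calc Real.exp r * (K : ℝ) ^ (2 * β * r + r ^ 2 + 1) * Q
      < P * R * Q := mul_lt_mul_of_pos_right hexp h9
    _ = Q * (P * R) * 1 := by ring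
    _ ≤ Q * (P * R) * P := mul_le_mul_of_nonneg_left h8 (by positivity)
    _ = _ := by ring

/-- positivity of the sifted count -/
theorem sift_pos (κ : ℕ) : ∃ u r0 : ℕ, ∀ r ≥ r0, ∀ A : ℕ → ℕ → Prop, Per A →
    (∀ p ∈ Pz r, rho A p ≤ κ ∧ rho A p < p) → ∀ M : ℕ, 2 ^ (2 ^ r * u) ≤ M → 0 < sift A r M := by
  -- constants
  set K : ℕ := κ + 1 with hK
  have hK1 : 1 ≤ K := by omega
  obtain ⟨β, hβ⟩ := tail_small (K : ℝ) (Real.exp (-(2 * K)) / 2) (by positivity) (by positivity)
  obtain ⟨j1, hj1⟩ := blk_sum_le (3 / 10) (by norm_num)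
  have hlog : Real.log 2 + 3 / 10 ≤ 1 := by
    have := Real.log_two_lt_d9
    norm_num at this ⊢
    linarith
  -- j0 : large primes in the blocks beyond j0
  set j0 : ℕ := max j1 (2 * K) with hj0
  have hbig : ∀ j ≥ j0, ∀ p ∈ Blk j, 2 * K ≤ p := by
    intro j hj p hp
    have h1 := (mem_Blk hp).1
    have h2 : j < 2 ^ j := Nat.lt_two_pow_self
    have h3 : 2 ^ j < 2 ^ 2 ^ j := Nat.lt_two_pow_self
    have h4 : 2 * K ≤ j := (le_max_right _ _).trans hj
    omega
  -- the small product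
  set c0 : ℝ := ∏ j ∈ range j0, ∏ p ∈ Blk j, (1 / (p : ℝ)) with hc0
  have hc0pos : 0 < c0 := by
    apply prod_pos
    intro j _
    apply prod_pos
    intro p hp
    have := (mem_Blk hp).2.2.pos
    positivity
  -- growth
  obtain ⟨r1, hr1⟩ := growth (Real.log K) (1 + 2 * β * Real.log K + 2 * K)
    (Real.log 2 + Real.log K - Real.log c0)
  refine ⟨4 * β + 7, max r1 (j0 + 2 ^ 2 ^ j0 + 1), ?_⟩
  intro r hr A hA hrho M hM
  have hrr1 : r1 ≤ r := (le_max_left _ _).trans hr
  have hrj0 : j0 + 2 ^ 2 ^ j0 + 1 ≤ r := (le_max_right _ _).trans hr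
  have hj0r : j0 ≤ r := (Nat.le_add_right j0 (2 ^ 2 ^ j0 + 1)).trans hrj0
  have hrhoK : ∀ p ∈ Pz r, rho A p ≤ K := fun p hp => (hrho p hp).1.trans (by omega)
  -- densities
  have hw0 : ∀ p, 0 ≤ ww A p := fun p => by unfold ww; positivity
  have hw1 : ∀ j < r, ∀ p ∈ Blk j, ww A p < 1 := by
    intro j hj p hp
    have h1 := (hrho p (Blk_sub_Pz hj hp)).2
    have h2 := (mem_Blk hp).2.2.pos
    unfold ww
    rw [div_lt_one (by exact_mod_cast h2)]
    exact_mod_cast h1
  have hV : ∀ j < r, 0 < ∏ p ∈ Blk j, (1 - ww A p) := by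
    intro j hj
    apply prod_pos
    intro p hp
    linarith [hw1 j hj p hp]
  -- sums over large blocks
  have hsum : ∀ j < r, j0 ≤ j → ∑ p ∈ Blk j, ww A p ≤ K := by
    intro j hj hjj
    calc ∑ p ∈ Blk j, ww A p ≤ ∑ p ∈ Blk j, (K : ℝ) * (1 / p) := by
          apply sum_le_sum
          intro p hp
          unfold ww
          rw [mul_one_div]
          apply div_le_div_of_nonneg_right _ (by positivity)
          exact_mod_cast hrhoK p (Blk_sub_Pz hj hp)
      _ = K * ∑ p ∈ Blk j, (1 : ℝ) / p := by rw [mul_sum]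
      _ ≤ K * 1 := by
          apply mul_le_mul_of_nonneg_left _ (by positivity)
          exact (hj1 j ((le_max_left _ _).trans hjj)).trans hlog
      _ = K := mul_one _
  have hVlow : ∀ j < r, j0 ≤ j → Real.exp (-(2 * K)) ≤ ∏ p ∈ Blk j, (1 - ww A p) := by
    intro j hj hjj
    have h1 : ∏ p ∈ Blk j, Real.exp (-(2 * ww A p)) ≤ ∏ p ∈ Blk j, (1 - ww A p) := by
      apply prod_le_prod
      · intro p _; positivity
      · intro p hp
        apply exp_le_one_sub (hw0 p)
        have h2 := hbig j hjj p hp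
        have h3 := hrhoK p (Blk_sub_Pz hj hp)
        have h4 := (mem_Blk hp).2.2.pos
        unfold ww
        rw [div_le_iff₀ (by exact_mod_cast h4)]
        have h5 : ((2 * K : ℕ) : ℝ) ≤ p := by exact_mod_cast h2
        have h6 : (rho A p : ℝ) ≤ K := by exact_mod_cast h3
        push_cast at h5
        linarith
    refine le_trans ?_ h1
    rw [← Real.exp_sum]
    apply Real.exp_le_exp.2
    rw [sum_neg_distrib, ← mul_sum]
    have := hsum j hj hjj
    linarith
  -- the parameters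
  have hbe : ∀ j, Even (bb β r j) := fun j => ⟨β + (r - 1 - j), by unfold bb; ring⟩
  have hbon := fun j (hj : j < r) => bonferroni (bb β r j) (hbe j) (Blk j) (ww A)
    (fun p _ => hw0 p) (fun p hp => (hw1 j hj p hp).le)
  set V : ℕ → ℝ := fun j => ∏ p ∈ Blk j, (1 - ww A p) with hVdef
  set Y : ℕ → ℝ := fun j => tr (bb β r j) (Blk j) (ww A) with hYdef
  set X : ℕ → ℝ := fun j => es (bb β r j + 1) (Blk j) (ww A) with hXdef
  have hVY : ∀ j < r, V j ≤ Y j := fun j hj => (hbon j hj).1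
  have hX0 : ∀ j, 0 ≤ X j := fun j => es_nonneg _ _ _ (fun p _ => hw0 p)
  -- bound for X j / V j
  have hXV : ∀ j ∈ range r, X j ≤ V j * (Real.exp (2 * K) *
      ((K : ℝ) ^ (2 * β + 2 * (r - 1 - j) + 1) / (2 * β + 2 * (r - 1 - j) + 1).factorial)) := by
    intro j hj
    rw [mem_range] at hj
    by_cases hjj : j0 ≤ j
    · have h1 : X j ≤ (∑ p ∈ Blk j, ww A p) ^ (bb β r j + 1) / (bb β r j + 1).factorial :=
        es_le _ _ _ (fun p _ => hw0 p)
      have h2 : (∑ p ∈ Blk j, ww A p) ^ (bb β r j + 1) / ((bb β r j + 1).factorial : ℝ) ≤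
          (K : ℝ) ^ (bb β r j + 1) / (bb β r j + 1).factorial := by
        apply div_le_div_of_nonneg_right _ (by positivity)
        exact pow_le_pow_left₀ (sum_nonneg (fun p _ => hw0 p)) (hsum j hj hjj) _
      have h3 := hVlow j hj hjj
      have h4 : (1 : ℝ) ≤ V j * Real.exp (2 * K) := by
        calc (1 : ℝ) = Real.exp (-(2 * K)) * Real.exp (2 * K) := by
              rw [← Real.exp_add]; simp
          _ ≤ V j * Real.exp (2 * K) := mul_le_mul_of_nonneg_right h3 (by positivity)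
      have h5 : 0 ≤ (K : ℝ) ^ (bb β r j + 1) / ((bb β r j + 1).factorial : ℝ) := by positivity
      calc X j ≤ (K : ℝ) ^ (bb β r j + 1) / (bb β r j + 1).factorial := h1.trans h2
        _ = 1 * ((K : ℝ) ^ (bb β r j + 1) / (bb β r j + 1).factorial) := (one_mul _).symm
        _ ≤ (V j * Real.exp (2 * K)) * ((K : ℝ) ^ (bb β r j + 1) / (bb β r j + 1).factorial) :=
            mul_le_mul_of_nonneg_right h4 h5
        _ = _ := by unfold bb; ring
    · push Not at hjj
      have h1 : X j = 0 := by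
        apply es_eq_zero
        have h2 := card_Blk_lt j
        have h3 : 2 ^ 2 ^ (j + 1) ≤ 2 ^ 2 ^ j0 :=
          Nat.pow_le_pow_right (by norm_num) (Nat.pow_le_pow_right (by norm_num) (by omega))
        unfold bb
        omega
      rw [h1]
      have := hV j hj
      positivity
  -- total loss
  have hloss : ∑ l ∈ range r, X l / V l ≤ 1 / 2 := by
    calc ∑ l ∈ range r, X l / V l ≤ ∑ l ∈ range r, (Real.exp (2 * K) *
          ((K : ℝ) ^ (2 * β + 2 * (r - 1 - l) + 1) / (2 * β + 2 * (r - 1 - l) + 1).factorial)) := by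
          apply sum_le_sum
          intro l hl
          rw [div_le_iff₀ (hV l (mem_range.1 hl)), mul_comm]
          exact hXV l hl
      _ = Real.exp (2 * K) * ∑ l ∈ range r,
          ((K : ℝ) ^ (2 * β + 2 * (r - 1 - l) + 1) / (2 * β + 2 * (r - 1 - l) + 1).factorial) := by
          rw [mul_sum]
      _ = Real.exp (2 * K) * ∑ i ∈ range r,
          ((K : ℝ) ^ (2 * β + 2 * i + 1) / (2 * β + 2 * i + 1).factorial) := by
          congr 1
          exact sum_range_reflect (fun i =>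
            ((K : ℝ) ^ (2 * β + 2 * i + 1) / ((2 * β + 2 * i + 1).factorial : ℝ))) r
      _ ≤ Real.exp (2 * K) * (Real.exp (-(2 * K)) / 2) :=
          mul_le_mul_of_nonneg_left (hβ r) (by positivity)
      _ = 1 / 2 := by
          rw [← mul_div_assoc, ← Real.exp_add]; simp
  -- main term
  have hYpos : ∀ j ∈ range r, 0 < Y j := fun j hj =>
    lt_of_lt_of_le (hV j (mem_range.1 hj)) (hVY j (mem_range.1 hj))
  have hmain : (∏ j ∈ range r, V j) / 2 ≤ ∏ j ∈ range r, Y j -
      ∑ l ∈ range r, X l * ∏ j ∈ (range r).erase l, Y j := by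
    have h1 : ∑ l ∈ range r, X l * ∏ j ∈ (range r).erase l, Y j ≤
        ∑ l ∈ range r, (X l / V l) * ∏ j ∈ range r, Y j := by
      apply sum_le_sum
      intro l hl
      rw [← mul_prod_erase (range r) Y hl, ← mul_assoc]
      apply mul_le_mul_of_nonneg_right
      · have hVl := hV l (mem_range.1 hl)
        rw [div_mul_eq_mul_div, le_div_iff₀ hVl]
        exact mul_le_mul_of_nonneg_left (hVY l (mem_range.1 hl)) (hX0 l)
      · exact prod_nonneg (fun j hj => (hYpos j (mem_of_mem_erase hj)).le)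
    rw [← sum_mul] at h1
    have h2 : 0 < ∏ j ∈ range r, Y j := prod_pos hYpos
    have h3 : ∏ j ∈ range r, V j ≤ ∏ j ∈ range r, Y j :=
      prod_le_prod (fun j hj => (hV j (mem_range.1 hj)).le) (fun j hj => hVY j (mem_range.1 hj))
    nlinarith
  -- lower bound for the product
  have hWlow : c0 * Real.exp (-(2 * K * r)) ≤ ∏ j ∈ range r, V j := by
    have h1 : range r = range j0 ∪ Ico j0 r := by
      ext x
      simp only [mem_range, mem_union, mem_Ico]
      constructor
      · intro hx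
        rcases lt_or_ge x j0 with h | h
        · exact Or.inl h
        · exact Or.inr ⟨h, hx⟩
      · rintro (h | ⟨_, h⟩)
        · exact lt_of_lt_of_le h hj0r
        · exact h
    have hdis : Disjoint (range j0) (Ico j0 r) := by
      rw [disjoint_left]; intro x h1 h2
      rw [mem_range] at h1; rw [mem_Ico] at h2; omega
    rw [h1, prod_union hdis]
    apply mul_le_mul
    · apply prod_le_prod
      · intro j _
        apply prod_nonneg
        intro p _; positivity
      · intro j hj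
        rw [mem_range] at hj
        apply prod_le_prod
        · intro p _; positivity
        · intro p hp
          have h2 := (hrho p (Blk_sub_Pz (lt_of_lt_of_le hj hj0r) hp)).2
          have h3 := (mem_Blk hp).2.2.pos
          have h3' : (0 : ℝ) < p := by exact_mod_cast h3
          unfold ww
          rw [div_le_iff₀ h3', sub_mul, div_mul_cancel₀ _ h3'.ne', one_mul]
          have : (rho A p : ℝ) + 1 ≤ p := by exact_mod_cast h2
          linarith
    · calc Real.exp (-(2 * K * r)) ≤ ∏ _j ∈ Ico j0 r, Real.exp (-(2 * K)) := by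
            rw [prod_const, Nat.card_Ico, ← Real.exp_nat_mul]
            apply Real.exp_le_exp.2
            have : ((r - j0 : ℕ) : ℝ) ≤ r := by exact_mod_cast Nat.sub_le r j0
            have hK0 : (0 : ℝ) ≤ K := by positivity
            nlinarith
        _ ≤ _ := by
            apply prod_le_prod
            · intro j _; positivity
            · intro j hj
              rw [mem_Ico] at hj
              exact hVlow j hj.2 hj.1
    · positivity
    · apply prod_nonneg
      intro j hj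
      rw [mem_range] at hj
      exact (hV j (lt_of_lt_of_le hj hj0r)).le
  -- apply the main inequality
  have hineq := main_ineq A hA (bb β r) hbe K hK1 r M hrhoK
  have hE := prod_EE_le K β r hK1
  have hEnn : 0 ≤ ∏ j ∈ range r, EE K (bb β r j) j :=
    prod_nonneg (fun j _ => by unfold EE; positivity)
  -- final comparison
  have hfin : (1 + (r : ℝ) * ((K * 2 ^ 2 ^ r : ℕ) : ℝ)) * ∏ j ∈ range r, EE K (bb β r j) j <
      M * ((∏ j ∈ range r, V j) / 2) := by
    have hM' : (2 : ℝ) ^ (2 ^ r * (4 * β + 7)) ≤ M := by exact_mod_cast hM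
    have hg := hr1 r hrr1
    have hKR : (1 : ℝ) ≤ K := by exact_mod_cast hK1
    -- LHS bound
    have hL : (1 + (r : ℝ) * ((K * 2 ^ 2 ^ r : ℕ) : ℝ)) * ∏ j ∈ range r, EE K (bb β r j) j ≤
        Real.exp r * (K : ℝ) ^ (2 * β * r + r ^ 2 + 1) * 2 ^ (2 ^ r * (4 * β + 5)) := by
      have h1 : 1 + (r : ℝ) * ((K * 2 ^ 2 ^ r : ℕ) : ℝ) ≤ Real.exp r * (K * 2 ^ 2 ^ r) := by
        have h2 : (r : ℝ) + 1 ≤ Real.exp r := Real.add_one_le_exp _
        have h3 : (1 : ℝ) ≤ K * 2 ^ 2 ^ r := by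
          have : (1 : ℝ) ≤ 2 ^ 2 ^ r := one_le_pow₀ (by norm_num)
          nlinarith
        push_cast
        nlinarith
      calc _ ≤ (Real.exp r * (K * 2 ^ 2 ^ r)) *
            ((K : ℝ) ^ (2 * β * r + r ^ 2) * 2 ^ (2 ^ r * (4 * β + 4))) :=
            mul_le_mul h1 hE hEnn (by positivity)
        _ = _ := by
            rw [show 2 ^ r * (4 * β + 5) = 2 ^ r + 2 ^ r * (4 * β + 4) by ring, pow_add, pow_succ]
            ring
    refine lt_of_le_of_lt hL ?_
    have hR : (2 : ℝ) ^ (2 ^ r * (4 * β + 7)) * (c0 * Real.exp (-(2 * K * r)) / 2) ≤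
        M * ((∏ j ∈ range r, V j) / 2) := by
      apply mul_le_mul hM'
      · linarith
      · positivity
      · positivity
    refine lt_of_lt_of_le ?_ hR
    exact compare K β r c0 hc0pos hK1 hg
  have hge : (M : ℝ) * ((∏ j ∈ range r, V j) / 2) ≤ M * (∏ j ∈ range r, Y j -
      ∑ l ∈ range r, X l * ∏ j ∈ (range r).erase l, Y j) :=
    mul_le_mul_of_nonneg_left hmain (by positivity)
  have hpos : (0 : ℝ) < (sift A r M : ℝ) := by
    have := hineq
    simp only [hYdef, hXdef] at hge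
    linarith
  exact_mod_cast hpos

end Pool.Agent.BrunHooley
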